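import Pool.Agent.Q201.FT.High

/-!
# Nerode equivalence, automata from sets of representatives
-/

set_option autoImplicit false

namespace Pool.Agent.Q201.FT

open Finset Nat

/-- Nerode equivalence for the shifted sequence -/
def Eqv (c : ℕ) (w w' : List Bool) : Prop :=
  ∀ y : List Bool, (Valid (w ++ y) ↔ Valid (w' ++ y)) ∧
    (Valid (w ++ y) → ftm (val (w ++ y) + c) = ftm (val (w' ++ y) + c))

theorem Eqv.refl (c : ℕ) (w : List Bool) : Eqv c w w := fun _ => ⟨Iff.rfl, fun _ => rfl⟩

theorem Eqv.symm {c : ℕ} {w w' : List Bool} (h : Eqv c w w') : Eqv c w' w :=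
  fun y => ⟨(h y).1.symm, fun hv => ((h y).2 ((h y).1.2 hv)).symm⟩

theorem Eqv.trans {c : ℕ} {w w' w'' : List Bool} (h : Eqv c w w') (h' : Eqv c w' w'') :
    Eqv c w w'' :=
  fun y => ⟨(h y).1.trans (h' y).1, fun hv => ((h y).2 hv).trans ((h' y).2 ((h y).1.1 hv))⟩

theorem Eqv.append {c : ℕ} {w w' : List Bool} (h : Eqv c w w') (b : List Bool) :
    Eqv c (w ++ b) (w' ++ b) := by
  intro y
  rw [List.append_assoc, List.append_assoc]
  exact h (b ++ y)

theorem Eqv.valid {c : ℕ} {w w' : List Bool} (h : Eqv c w w') : Valid w ↔ Valid w' := by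
  have := (h []).1
  rwa [List.append_nil, List.append_nil] at this

theorem Eqv.out {c : ℕ} {w w' : List Bool} (h : Eqv c w w') (hw : Valid w) :
    ftm (val w + c) = ftm (val w' + c) := by
  have := (h []).2
  rw [List.append_nil, List.append_nil] at this
  exact this hw

theorem exists_dfao {c : ℕ} (R : Finset (List Bool)) (hR : ∀ w, Valid w → ∃ r ∈ R, Eqv c w r) :
    ∃ M : DFAO, Nat.card M.Q = R.card ∧ M.Generates fun i => ftm (i + c) := by
  classical
  obtain ⟨r0, hr0, hr0'⟩ := hR [] valid_nil
  let δ : R → Bool → Option R := fun q b =>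
    if h : ∃ r ∈ R, Eqv c (q.1 ++ [b]) r then some ⟨h.choose, h.choose_spec.1⟩ else none
  let M : DFAO := ⟨R, inferInstance, δ, ⟨r0, hr0⟩, fun q => ftm (val q.1 + c)⟩
  have hrun : ∀ w : List Bool, Valid w → ∃ q : R, M.run w = some q ∧ Eqv c w q.1 := by
    intro w
    induction w using List.reverseRecOn with
    | nil =>
      intro _
      exact ⟨⟨r0, hr0⟩, rfl, hr0'⟩
    | append_singleton w b ih =>
      intro hv
      obtain ⟨q, hq, hq'⟩ := ih (valid_append.1 hv).1
      obtain ⟨r, hr, hr'⟩ := hR _ hv
      have hex : ∃ r ∈ R, Eqv c (q.1 ++ [b]) r := ⟨r, hr, (hq'.append [b]).symm.trans hr'⟩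
      have hstep : M.run (w ++ [b]) = δ q b := by
        unfold DFAO.run
        rw [List.foldl_append, List.foldl_cons, List.foldl_nil]
        have : w.foldl (fun o b => o.bind fun q => M.δ q b) (some M.q0) = some q := hq
        rw [this]
        rfl
      refine ⟨⟨hex.choose, hex.choose_spec.1⟩, ?_, ?_⟩
      · rw [hstep]
        exact dif_pos hex
      · exact (hq'.append [b]).trans hex.choose_spec.2
  refine ⟨M, ?_, ?_⟩
  · exact Nat.card_eq_finsetCard R
  · intro w hw
    obtain ⟨q, hq, hq'⟩ := hrun w hw
    exact ⟨q, hq, (hq'.out hw).symm⟩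

/-- two-sided congruence -/
def Cg (c : ℕ) (x x' : List Bool) : Prop := ∀ h : List Bool, Eqv c (h ++ x) (h ++ x')

theorem Cg.refl (c : ℕ) (x : List Bool) : Cg c x x := fun _ => Eqv.refl _ _

theorem Cg.trans {c : ℕ} {x y z : List Bool} (h : Cg c x y) (h' : Cg c y z) : Cg c x z :=
  fun a => (h a).trans (h' a)

theorem Cg.left {c : ℕ} {x x' : List Bool} (h : Cg c x x') (a : List Bool) :
    Cg c (a ++ x) (a ++ x') := by
  intro b
  rw [← List.append_assoc, ← List.append_assoc]
  exact h (b ++ a)

theorem Cg.right {c : ℕ} {x x' : List Bool} (h : Cg c x x') (b : List Bool) :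
    Cg c (x ++ b) (x' ++ b) := by
  intro a
  rw [← List.append_assoc, ← List.append_assoc]
  exact (h a).append b

theorem Cg.valid {c : ℕ} {x x' : List Bool} (h : Cg c x x') : Valid x ↔ Valid x' := (h []).valid

/-- the block `0010010101000` -/
def u : List Bool := [false, false, true, false, false, true, false, true, false, true,
  false, false, false]

/-- the block `0010101001000` -/
def u' : List Bool := [false, false, true, false, true, false, true, false, false, true,
  false, false, false]

theorem ones_u : ones u = {12, 9, 7, 5} := by decide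

theorem ones_u' : ones u' = {12, 10, 8, 5} := by decide

theorem valid_u : Valid u := by
  unfold Valid u
  decide

theorem valid_u' : Valid u' := by
  unfold Valid u'
  decide

theorem val_block (v : List Bool) (a b c d : ℕ) (hv : v.length = 13) (hones : ones v = {a, b, c, d})
    (h1 : a ∉ ({b, c, d} : Finset ℕ)) (h2 : b ∉ ({c, d} : Finset ℕ)) (h3 : c ≠ d)
    (h y : List Bool) : val (h ++ v ++ y) = fs (sh (y.length + 13) (ones h)) +
      (fib (a + y.length) + fib (b + y.length) + fib (c + y.length) + fib (d + y.length)) +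
      fs (ones y) := by
  classical
  rw [List.append_assoc, val_append, val_append, List.length_append, hv, val_eq y, hones,
    fs_sh y.length, Finset.sum_insert h1, Finset.sum_insert h2,
    Finset.sum_insert (by simpa using h3), Finset.sum_singleton]
  have : 13 + y.length = y.length + 13 := by omega
  rw [this]
  omega

theorem cg_block {j : ℕ} (hj : 2 ≤ j) : Cg (fib j) u u' := by
  intro h y
  have hu : startsOne (u ++ y) = false := rfl
  have hu' : startsOne (u' ++ y) = false := rfl
  have key : ∀ v : List Bool, Valid v → endsOne v = false → startsOne (v ++ y) = false →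
      (Valid (h ++ v ++ y) ↔ Valid h ∧ Valid y) := by
    intro v hv hv1 hv2
    rw [List.append_assoc, valid_append, valid_append, hv1, hv2]
    simp [hv]
  have k1 := key u valid_u rfl rfl
  have k2 := key u' valid_u' rfl rfl
  refine ⟨k1.trans k2.symm, fun hv => ?_⟩
  obtain ⟨hh, hy⟩ := k1.1 hv
  rw [val_block u 12 9 7 5 rfl ones_u (by decide) (by decide) (by decide),
    val_block u' 12 10 8 5 rfl ones_u' (by decide) (by decide) (by decide)]
  have := swapZ (A := sh (y.length + 13) (ones h)) (B := ones y) (p := y.length + 2) (j := j)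
    (isZ_ones h hh).sh (isZ_ones y hy) (by
      intro i hi
      obtain ⟨a, ha, rfl⟩ := mem_sh.1 hi
      have := mem_ones_lt h a ha
      omega) (by
      intro i hi
      have := mem_ones_lt y i hi
      omega) (by omega) hj
  have e12 : 12 + y.length = y.length + 2 + 10 := by omega
  have e9 : 9 + y.length = y.length + 2 + 7 := by omega
  have e7 : 7 + y.length = y.length + 2 + 5 := by omega
  have e5 : 5 + y.length = y.length + 2 + 3 := by omega
  have e10 : 10 + y.length = y.length + 2 + 8 := by omega
  have e8 : 8 + y.length = y.length + 2 + 6 := by omega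
  rw [e12, e9, e7, e5, e10, e8]
  exact this

theorem high_eqv {k c : ℕ} (hk : c ≤ fib k) {h h' : List Bool} (hh : Valid h) (hh' : Valid h')
    (h1 : endsOne h = endsOne h') (h2 : ftm (val h) = ftm (val h'))
    (h3 : ftm (val h + 1) = ftm (val h' + 1)) {x : List Bool} (hx : k + 1 ≤ x.length) :
    Eqv c (h ++ x) (h' ++ x) := by
  intro y
  rw [List.append_assoc, List.append_assoc]
  constructor
  · rw [valid_append (a := h), valid_append (a := h'), h1]
    simp [hh, hh']
  · intro hv
    obtain ⟨g, hg⟩ := high hk (valid_append.1 hv).2.1 (by rw [List.length_append]; omega)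
    rw [hg h hh, hg h' hh', h1, h2, h3]

theorem eqv_zero (c : ℕ) (w : List Bool) : Eqv c w (false :: w) := by
  intro y
  rw [List.cons_append]
  refine ⟨?_, fun _ => ?_⟩
  · rw [valid_cons]
    simp
  · have : val (false :: (w ++ y)) = val (w ++ y) := by simp [val]
    rw [this]

theorem eqv_pad (c : ℕ) (n : ℕ) (w : List Bool) : Eqv c w (List.replicate n false ++ w) := by
  induction n with
  | zero => exact Eqv.refl _ _
  | succ n ih =>
    rw [List.replicate_succ, List.cons_append]
    exact ih.trans (eqv_zero c _)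

/-- representatives from representatives of the low parts -/
theorem cover {k c : ℕ} (hk : c ≤ fib k) (Rs : Finset (List Bool))
    (hlen : ∀ r ∈ Rs, r.length = k + 1)
    (hcov : ∀ x, Valid x → x.length = k + 1 → ∃ r ∈ Rs, Cg c x r) :
    ∃ R : Finset (List Bool), R.card ≤ 8 * Rs.card ∧ ∀ w, Valid w → ∃ r ∈ R, Eqv c w r := by
  classical
  let cls : List Bool → Bool × ℕ × ℕ := fun h => (endsOne h, ftm (val h), ftm (val h + 1))
  let K : Finset (Bool × ℕ × ℕ) := Finset.univ ×ˢ (Finset.range 2 ×ˢ Finset.range 2)
  let rep : Bool × ℕ × ℕ → List Bool := fun κ =>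
    if hex : ∃ h, Valid h ∧ cls h = κ then hex.choose else []
  have hrep : ∀ h, Valid h → Valid (rep (cls h)) ∧ cls (rep (cls h)) = cls h := by
    intro h hh
    have hex : ∃ h', Valid h' ∧ cls h' = cls h := ⟨h, hh, rfl⟩
    have : rep (cls h) = hex.choose := dif_pos hex
    rw [this]
    exact hex.choose_spec
  have hK : ∀ h, cls h ∈ K := by
    intro h
    simp only [K, cls, Finset.mem_product, Finset.mem_univ, Finset.mem_range, true_and]
    exact ⟨Nat.mod_lt _ (by norm_num), Nat.mod_lt _ (by norm_num)⟩
  refine ⟨(K ×ˢ Rs).image fun p => rep p.1 ++ p.2, ?_, ?_⟩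
  · refine le_trans Finset.card_image_le ?_
    rw [Finset.card_product]
    exact Nat.mul_le_mul_right _ (by simp [K])
  · intro w hw
    have e1 := eqv_pad c (k + 1) w
    set w' := List.replicate (k + 1) false ++ w with hw'
    have hv' : Valid w' := e1.valid.1 hw
    have hl : k + 1 ≤ w'.length := by
      rw [hw', List.length_append, List.length_replicate]
      omega
    obtain ⟨h, x, hhx, hxl⟩ : ∃ h x, w' = h ++ x ∧ x.length = k + 1 := by
      refine ⟨w'.take (w'.length - (k + 1)), w'.drop (w'.length - (k + 1)),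
        (List.take_append_drop _ _).symm, ?_⟩
      rw [List.length_drop]
      omega
    rw [hhx] at hv' e1
    obtain ⟨vh, vx, -⟩ := valid_append.1 hv'
    obtain ⟨r, hr, hr'⟩ := hcov x vx hxl
    obtain ⟨v1, v2⟩ := hrep h vh
    have v3 : endsOne h = endsOne (rep (cls h)) := (congrArg Prod.fst v2).symm
    have v4 : ftm (val h) = ftm (val (rep (cls h))) :=
      (congrArg (fun p => p.2.1) v2).symm
    have v5 : ftm (val h + 1) = ftm (val (rep (cls h)) + 1) :=
      (congrArg (fun p => p.2.2) v2).symm
    refine ⟨rep (cls h) ++ r, Finset.mem_image.2 ⟨(cls h, r), ?_, rfl⟩, ?_⟩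
    · exact Finset.mem_product.2 ⟨hK h, hr⟩
    · exact (e1.trans (hr' h)).trans (high_eqv hk vh v1 v3 v4 v5 (by rw [hlen r hr]))

end Pool.Agent.Q201.FT
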