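import Pool.Agent.Q201.FT.Cong

/-!
# Counting representatives with the golden weights
-/

set_option autoImplicit false

namespace Pool.Agent.Q201.FT

open Finset
open Nat (fib)

/-- all valid extensions by one digit on the left -/
def ext (A : Finset (List Bool)) : Finset (List Bool) :=
  A.image (List.cons false) ∪ (A.filter fun w => startsOne w = false).image (List.cons true)

/-- the golden weight of a word -/
noncomputable def wt (w : List Bool) : ℝ := if startsOne w = true then 1 else Real.goldenRatio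

/-- total weight -/
noncomputable def WT (A : Finset (List Bool)) : ℝ := ∑ w ∈ A, wt w

theorem one_le_wt (w : List Bool) : 1 ≤ wt w := by
  unfold wt
  split_ifs
  · exact le_rfl
  · exact Real.one_lt_goldenRatio.le

theorem wt_le (w : List Bool) : wt w ≤ Real.goldenRatio := by
  unfold wt
  split_ifs
  · exact Real.one_lt_goldenRatio.le
  · exact le_rfl

theorem card_le_WT (A : Finset (List Bool)) : (A.card : ℝ) ≤ WT A := by
  unfold WT
  have : (A.card : ℝ) = ∑ _w ∈ A, (1 : ℝ) := by simp
  rw [this]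
  exact Finset.sum_le_sum fun w _ => one_le_wt w

theorem WT_ext (A : Finset (List Bool)) : WT (ext A) = Real.goldenRatio * WT A := by
  unfold WT ext
  rw [Finset.sum_union, Finset.sum_image, Finset.sum_image, Finset.sum_filter,
    ← Finset.sum_add_distrib, Finset.mul_sum]
  · refine Finset.sum_congr rfl fun w _ => ?_
    have h1 : wt (false :: w) = Real.goldenRatio := by simp [wt, startsOne]
    have h2 : wt (true :: w) = 1 := by simp [wt, startsOne]
    rw [h1, h2]
    cases hs : startsOne w with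
    | false =>
      have : wt w = Real.goldenRatio := by simp [wt, hs]
      rw [this, if_pos rfl]
      have := Real.goldenRatio_sq
      nlinarith
    | true =>
      have : wt w = 1 := by simp [wt, hs]
      rw [this, if_neg (by simp)]
      ring
  · intro a _ b _ h
    exact (List.cons.inj h).2
  · intro a _ b _ h
    exact (List.cons.inj h).2
  · rw [Finset.disjoint_left]
    intro a ha hb
    obtain ⟨x, _, rfl⟩ := Finset.mem_image.1 ha
    obtain ⟨y, _, hy⟩ := Finset.mem_image.1 hb
    exact absurd (List.cons.inj hy).1 (by simp)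

theorem WT_iter (A : Finset (List Bool)) (n : ℕ) : WT (ext^[n] A) = Real.goldenRatio ^ n * WT A := by
  induction n with
  | zero => simp
  | succ n ih =>
    rw [Function.iterate_succ_apply', WT_ext, ih]
    ring

theorem mem_iter {A : Finset (List Bool)} {r : List Bool} (hr : r ∈ A) : ∀ b : List Bool,
    Valid (b ++ r) → b ++ r ∈ ext^[b.length] A := by
  intro b
  induction b with
  | nil => intro _; exact hr
  | cons e b ih =>
    intro hv
    rw [List.cons_append] at hv ⊢
    obtain ⟨h1, h2⟩ := valid_cons.1 hv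
    rw [List.length_cons, Function.iterate_succ_apply']
    unfold ext
    cases e with
    | false => exact Finset.mem_union_left _ (Finset.mem_image_of_mem _ (ih h1))
    | true =>
      refine Finset.mem_union_right _ (Finset.mem_image_of_mem _ (Finset.mem_filter.2
        ⟨ih h1, ?_⟩))
      simpa using h2

/-- a good family of representatives of the valid words of length `n` -/
structure Good (c n : ℕ) (A : Finset (List Bool)) : Prop where
  len : ∀ r ∈ A, r.length = n
  val : ∀ r ∈ A, Valid r
  cov : ∀ x, Valid x → x.length = n → ∃ r ∈ A, Cg c x r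

theorem good_zero (c : ℕ) : Good c 0 {[]} := by
  refine ⟨by simp, ?_, ?_⟩
  · intro r hr
    rw [Finset.mem_singleton] at hr
    subst hr
    exact valid_nil
  · intro x _ hx
    rw [List.length_eq_zero_iff] at hx
    subst hx
    exact ⟨[], by simp, Cg.refl _ _⟩

theorem Good.ext {c n : ℕ} {A : Finset (List Bool)} (h : Good c n A) : Good c (n + 1) (ext A) := by
  refine ⟨?_, ?_, ?_⟩
  · intro r hr
    rcases Finset.mem_union.1 hr with hr | hr
    · obtain ⟨x, hx, rfl⟩ := Finset.mem_image.1 hr
      simp [h.len x hx]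
    · obtain ⟨x, hx, rfl⟩ := Finset.mem_image.1 hr
      simp [h.len x (Finset.mem_filter.1 hx).1]
  · intro r hr
    rcases Finset.mem_union.1 hr with hr | hr
    · obtain ⟨x, hx, rfl⟩ := Finset.mem_image.1 hr
      exact valid_cons.2 ⟨h.val x hx, by simp⟩
    · obtain ⟨x, hx, rfl⟩ := Finset.mem_image.1 hr
      obtain ⟨h1, h2⟩ := Finset.mem_filter.1 hx
      exact valid_cons.2 ⟨h.val x h1, by simp [h2]⟩
  · intro x hv hx
    cases x with
    | nil => simp at hx
    | cons e x =>
      obtain ⟨r, hr, hr'⟩ := h.cov x (valid_cons.1 hv).1 (by simpa using hx)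
      have h1 := hr'.left [e]
      rw [List.singleton_append, List.singleton_append] at h1
      exact ⟨e :: r, mem_iter hr [e] (h1.valid.1 hv), h1⟩

theorem Good.iter {c n : ℕ} {A : Finset (List Bool)} (h : Good c n A) (m : ℕ) :
    Good c (n + m) (FT.ext^[m] A) := by
  induction m with
  | zero => exact h
  | succ m ih =>
    rw [Function.iterate_succ_apply']
    exact ih.ext

theorem Good.block {j n : ℕ} (hj : 2 ≤ j) {A : Finset (List Bool)} (h : Good (fib j) n A) :
    ∃ B, Good (fib j) (n + 13) B ∧ WT B ≤ (Real.goldenRatio ^ 13 - 1) * WT A := by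
  classical
  have hsub : A.image (fun r => u ++ r) ⊆ FT.ext^[13] A := by
    intro x hx
    obtain ⟨r, hr, rfl⟩ := Finset.mem_image.1 hx
    refine mem_iter hr u ?_
    rw [valid_append]
    refine ⟨valid_u, h.val r hr, ?_⟩
    have : endsOne u = false := rfl
    simp [this]
  have h13 := h.iter 13
  have hnot : ∀ (b r : List Bool), b.length = 13 → b ≠ u → b ++ r ∉ A.image (fun r => u ++ r) := by
    intro b r hb hbu hmem
    obtain ⟨s, _, hs⟩ := Finset.mem_image.1 hmem
    have := List.append_inj hs (by rw [hb]; rfl)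
    exact hbu this.1.symm
  refine ⟨FT.ext^[13] A \ A.image (fun r => u ++ r), ⟨?_, ?_, ?_⟩, ?_⟩
  · exact fun r hr => h13.len r (Finset.mem_sdiff.1 hr).1
  · exact fun r hr => h13.val r (Finset.mem_sdiff.1 hr).1
  · intro x hv hx
    obtain ⟨b, x', rfl, hb, hx'⟩ : ∃ b x', x = b ++ x' ∧ b.length = 13 ∧ x'.length = n := by
      refine ⟨x.take 13, x.drop 13, (List.take_append_drop _ _).symm, ?_, ?_⟩
      · rw [List.length_take]; omega
      · rw [List.length_drop]; omega
    obtain ⟨r, hr, hr'⟩ := h.cov x' (valid_append.1 hv).2.1 hx'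
    have h1 := hr'.left b
    have hv1 := h1.valid.1 hv
    by_cases hbu : b = u
    · subst hbu
      have h2 := (cg_block hj).right r
      have hv2 := h2.valid.1 hv1
      exact ⟨u' ++ r, Finset.mem_sdiff.2 ⟨mem_iter hr u' hv2, hnot u' r rfl (by decide)⟩,
        h1.trans h2⟩
    · have h3 := mem_iter hr b hv1
      rw [hb] at h3
      exact ⟨b ++ r, Finset.mem_sdiff.2 ⟨h3, hnot b r hb hbu⟩, h1⟩
  · have e1 : WT (FT.ext^[13] A \ A.image (fun r => u ++ r)) + WT (A.image (fun r => u ++ r)) =
        WT (FT.ext^[13] A) := Finset.sum_sdiff hsub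
    rw [WT_iter] at e1
    have e2 : WT A ≤ WT (A.image (fun r => u ++ r)) := by
      unfold WT
      rw [Finset.sum_image (fun a _ b _ hab => List.append_cancel_left hab)]
      refine Finset.sum_le_sum fun r _ => ?_
      have : wt (u ++ r) = Real.goldenRatio := by
        have : startsOne (u ++ r) = false := rfl
        simp [wt, this]
      rw [this]
      exact wt_le r
    linarith

theorem exists_good {j : ℕ} (hj : 2 ≤ j) (q : ℕ) :
    ∃ A, Good (fib j) (13 * q) A ∧ WT A ≤ Real.goldenRatio * (Real.goldenRatio ^ 13 - 1) ^ q := by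
  induction q with
  | zero =>
    refine ⟨{[]}, good_zero _, ?_⟩
    simp [WT, wt, startsOne]
  | succ q ih =>
    obtain ⟨A, hA, hA'⟩ := ih
    obtain ⟨B, hB, hB'⟩ := hA.block hj
    refine ⟨B, hB, hB'.trans ?_⟩
    have h0 : (0 : ℝ) ≤ Real.goldenRatio ^ 13 - 1 := by
      have := one_le_pow₀ (n := 13) Real.one_lt_goldenRatio.le
      linarith
    calc (Real.goldenRatio ^ 13 - 1) * WT A ≤ (Real.goldenRatio ^ 13 - 1) * (Real.goldenRatio * (Real.goldenRatio ^ 13 - 1) ^ q) :=
          mul_le_mul_of_nonneg_left hA' h0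
      _ = Real.goldenRatio * (Real.goldenRatio ^ 13 - 1) ^ (q + 1) := by ring

theorem S_mem_of {c : ℕ} (h : ∃ R : Finset (List Bool), ∀ w, Valid w → ∃ r ∈ R, Eqv c w r) :
    ∃ M : DFAO, Nat.card M.Q = S c ∧ M.Generates fun i => ftm (i + c) := by
  obtain ⟨R, hR⟩ := h
  obtain ⟨M, hM⟩ := exists_dfao R hR
  exact Nat.sInf_mem (s := {n | ∃ M : DFAO, Nat.card M.Q = n ∧ M.Generates fun i => ftm (i + c)})
    ⟨_, M, hM⟩

theorem S_le_of {c : ℕ} (R : Finset (List Bool)) (hR : ∀ w, Valid w → ∃ r ∈ R, Eqv c w r) :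
    S c ≤ R.card := by
  obtain ⟨M, hM⟩ := exists_dfao R hR
  exact Nat.sInf_le ⟨M, hM⟩

theorem S_mem (c : ℕ) :
    ∃ M : DFAO, Nat.card M.Q = S c ∧ M.Generates fun i => ftm (i + c) := by
  obtain ⟨k, hk⟩ : ∃ k, c ≤ fib k := ⟨c + 5, le_trans (by omega) (Nat.le_fib_self (by omega))⟩
  have hg := (good_zero c).iter (k + 1)
  rw [Nat.zero_add] at hg
  obtain ⟨R, -, hR⟩ := cover hk _ hg.len hg.cov
  exact S_mem_of ⟨R, hR⟩

theorem S_fib_le {k q r : ℕ} (hk : 2 ≤ k) (hq : 13 * q + r = k + 1) :
    (S (fib k) : ℝ) ≤ 8 * (Real.goldenRatio ^ (r + 1) * (Real.goldenRatio ^ 13 - 1) ^ q) := by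
  obtain ⟨A, hA, hA'⟩ := exists_good hk q
  have hg := hA.iter r
  rw [hq] at hg
  obtain ⟨R, hR1, hR2⟩ := cover le_rfl _ hg.len hg.cov
  have h1 := S_le_of R hR2
  have h2 := card_le_WT (FT.ext^[r] A)
  rw [WT_iter] at h2
  have h3 : (S (fib k) : ℝ) ≤ (8 * (FT.ext^[r] A).card : ℕ) := by exact_mod_cast h1.trans hR1
  push_cast at h3
  have h4 : (0 : ℝ) < Real.goldenRatio ^ r := pow_pos Real.goldenRatio_pos r
  have h5 : Real.goldenRatio ^ r * WT A ≤ Real.goldenRatio ^ r * (Real.goldenRatio * (Real.goldenRatio ^ 13 - 1) ^ q) := mul_le_mul_of_nonneg_left hA' h4.le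
  have h6 : Real.goldenRatio ^ (r + 1) * (Real.goldenRatio ^ 13 - 1) ^ q = Real.goldenRatio ^ r * (Real.goldenRatio * (Real.goldenRatio ^ 13 - 1) ^ q) := by ring
  rw [h6]
  linarith

end Pool.Agent.Q201.FT
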