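import Pool.Agent.Q201.FT.Swap

/-!
# Fibonacci automata with output: definitions

Words are lists of booleans, most significant digit first; `true` is the digit `1`.
-/

set_option autoImplicit false

namespace Pool.Agent.Q201.FT

/-- no two consecutive digits are `1` -/
def Valid (w : List Bool) : Prop := w.IsChain fun a b => ¬ (a = true ∧ b = true)

/-- the number represented by a word: the last digit has weight `F_2 = 1`, the one before it has
weight `F_3 = 2`, and so on -/
def val : List Bool → ℕ
  | [] => 0
  | e :: w => (if e then Nat.fib (w.length + 2) else 0) + val w

/-- a Fibonacci-DFAO (the output map is read in `ℕ`; it has finitely many values) -/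
structure DFAO where
  /-- the states -/
  Q : Type
  /-- there are finitely many states -/
  fin : Finite Q
  /-- the partial transition function -/
  δ : Q → Bool → Option Q
  /-- the initial state -/
  q0 : Q
  /-- the output map -/
  τ : Q → ℕ

/-- the state reached from the initial state after reading a word, if it is defined -/
def DFAO.run (M : DFAO) (w : List Bool) : Option M.Q :=
  w.foldl (fun o b => o.bind fun q => M.δ q b) (some M.q0)

/-- `M` generates the sequence `h`: it reads every representation (leading zeros allowed) of every
number `i` and outputs `h i` -/
def DFAO.Generates (M : DFAO) (h : ℕ → ℕ) : Prop :=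
  ∀ w : List Bool, Valid w → ∃ q, M.run w = some q ∧ M.τ q = h (val w)

/-- the least number of states of a Fibonacci-DFAO generating the shifted sequence -/
noncomputable def S (c : ℕ) : ℕ :=
  sInf {n | ∃ M : DFAO, Nat.card M.Q = n ∧ M.Generates fun i => ftm (i + c)}

end Pool.Agent.Q201.FT
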