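import Pool.Agent.Q201.FT.Words

/-!
# Long words: only three pieces of information about the high digits matter
-/

set_option autoImplicit false

namespace Pool.Agent.Q201.FT

open Finset Nat

theorem high {k c : ℕ} (hk : c ≤ fib k) {x : List Bool} (hx : Valid x) (hlen : k + 1 ≤ x.length) :
    ∃ g : Bool → ℕ → ℕ → ℕ, ∀ h : List Bool, Valid h →
      ftm (val (h ++ x) + c) = g (endsOne h) (ftm (val h)) (ftm (val h + 1)) := by
  classical
  have hv := val_lt x hx
  obtain ⟨n, hm⟩ : ∃ n, x.length = n + 1 := ⟨x.length - 1, by omega⟩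
  rw [hm] at hv hlen
  have hc : c ≤ fib n := le_trans hk (Nat.fib_mono (by omega))
  have f2 : fib (n + 2) = fib n + fib (n + 1) := Nat.fib_add_two
  have f3 : fib (n + 3) = fib (n + 1) + fib (n + 2) := Nat.fib_add_two
  have f4 : fib (n + 4) = fib (n + 2) + fib (n + 3) := Nat.fib_add_two
  have hn0 : fib n ≤ fib (n + 1) := Nat.fib_le_fib_succ
  obtain ⟨D, hD, hDs⟩ := exists_rep (val x + c)
  have hv' : val x < fib (n + 3) := hv
  have hDb := lt_of_fs (s := D) (n := n + 4) (by omega)
  have htot : ∀ h : List Bool, val (h ++ x) + c = fs (sh (n + 1) (ones h)) + fs D := by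
    intro h
    rw [val_append, hm, hDs, add_assoc]
  by_cases c1 : n + 3 ∈ D
  · -- a carry
    have hDe := fs_erase c1
    have hD' : IsZ (D.erase (n + 3)) := hD.subset (Finset.erase_subset _ _)
    have hD'b := lt_of_fs (s := D.erase (n + 3)) (n := n) (by omega)
    refine ⟨fun e _ t1 => if e then (t1 + 1 + (D.erase (n + 3)).card) % 2
      else (t1 + (D.erase (n + 3)).card) % 2, fun h hh => ?_⟩
    rw [htot h]
    beta_reduce
    have hZ := isZ_ones h hh
    by_cases h2 : endsOne h = true
    · rw [if_pos h2]
      have h2' := (two_mem_ones h).2 h2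
      have hG : IsZ ((ones h).erase 2) := hZ.subset (Finset.erase_subset _ _)
      have hGb : ∀ i ∈ (ones h).erase 2, 3 + 1 ≤ i := by
        intro i hi
        obtain ⟨hi1, hi2⟩ := Finset.mem_erase.1 hi
        have h4 := hZ.1 i hi2
        exact gap hZ hi2 h2' (by omega)
      obtain ⟨T, t1, t2, t3⟩ := up _ _ 3 le_rfl (by omega) hG hGb
      have e0 := t3 0
      rw [sh_zero, sh_zero] at e0
      have e1 := t3 (n + 1)
      have e2 : ftm (val h + 1) = T.card % 2 := by
        rw [← ftm_fs t1, ← e0, val_eq, fs_erase h2']
        norm_num [fib]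
        ring_nf
      have e3 : fs (sh (n + 1) (ones h)) = fib (n + 3) + fs (sh (n + 1) ((ones h).erase 2)) := by
        rw [fs_sh, fs_sh, ← Finset.add_sum_erase _ _ h2']
        have : 2 + (n + 1) = n + 3 := by omega
        rw [this]
      obtain ⟨s1, s2, s3⟩ := sep (S := sh (n + 1) T) (T := insert (n + 1) (D.erase (n + 3)))
        t1.sh (hD'.insert (by
          have h5 : 2 ≤ n + 3 := by omega
          by_contra hlt
          have : n = 0 := by omega
          subst this
          rw [Nat.fib_zero] at hc
          have h6 := le_fs c1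
          omega) (fun b hb => by have := hD'b b hb; omega)) (by
          intro a ha b hb
          obtain ⟨a', ha', rfl⟩ := mem_sh.1 ha
          have h5 := t2 a' ha'
          rcases Finset.mem_insert.1 hb with rfl | hb
          · omega
          · have := hD'b b hb
            omega)
      have e4 : fs (insert (n + 1) (D.erase (n + 3))) = fib (n + 1) + fs (D.erase (n + 3)) :=
        fs_insert (fun h => by have := hD'b _ h; omega)
      have e5 : (insert (n + 1) (D.erase (n + 3))).card = (D.erase (n + 3)).card + 1 :=
        Finset.card_insert_of_notMem (fun h => by have := hD'b _ h; omega)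
      have e6 : 3 + (n + 1) = n + 4 := by omega
      rw [e6] at e1
      have e7 : fs (sh (n + 1) (ones h)) + fs D =
          fs (sh (n + 1) T ∪ insert (n + 1) (D.erase (n + 3))) := by
        rw [s2, e4]
        omega
      rw [e7, ftm_fs s1, s3, e5, card_sh, e2]
      omega
    · rw [if_neg h2]
      have h2' : 2 ∉ ones h := fun h' => h2 ((two_mem_ones h).1 h')
      have hGb : ∀ i ∈ ones h, 2 + 1 ≤ i := by
        intro i hi
        have h4 := hZ.1 i hi
        have h5 : i ≠ 2 := fun e => h2' (e ▸ hi)
        omega
      obtain ⟨T, t1, t2, t3⟩ := up _ _ 2 le_rfl (by omega) hZ hGb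
      have e0 := t3 0
      rw [sh_zero, sh_zero] at e0
      have e1 := t3 (n + 1)
      have e2 : ftm (val h + 1) = T.card % 2 := by
        rw [← ftm_fs t1, ← e0, val_eq]
        norm_num [fib]
      obtain ⟨s1, s2, s3⟩ := sep (S := sh (n + 1) T) (T := D.erase (n + 3)) t1.sh hD' (by
          intro a ha b hb
          obtain ⟨a', ha', rfl⟩ := mem_sh.1 ha
          have h5 := t2 a' ha'
          have := hD'b b hb
          omega)
      have e6 : 2 + (n + 1) = n + 3 := by omega
      rw [e6] at e1
      have e7 : fs (sh (n + 1) (ones h)) + fs D =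
          fs (sh (n + 1) T ∪ D.erase (n + 3)) := by
        rw [s2]
        omega
      rw [e7, ftm_fs s1, s3, card_sh, e2]
      omega
  · have hDb' : ∀ i ∈ D, i < n + 3 := by
      intro i hi
      have h4 := hDb i hi
      have h5 : i ≠ n + 3 := fun e => c1 (e ▸ hi)
      omega
    by_cases c2 : n + 2 ∈ D
    · have hDe := fs_erase c2
      have hD' : IsZ (D.erase (n + 2)) := hD.subset (Finset.erase_subset _ _)
      have hD'b : ∀ i ∈ D.erase (n + 2), i ≤ n := by
        intro i hi
        obtain ⟨hi1, hi2⟩ := Finset.mem_erase.1 hi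
        have h4 := hDb' i hi2
        have := gap hD c2 hi2 (by omega)
        omega
      have hcard : D.card = (D.erase (n + 2)).card + 1 := by
        rw [Finset.card_erase_of_mem c2]
        have : 0 < D.card := Finset.card_pos.2 ⟨_, c2⟩
        omega
      refine ⟨fun e t0 t1 => if e then (t1 + (D.erase (n + 2)).card) % 2
        else (t0 + D.card) % 2, fun h hh => ?_⟩
      rw [htot h]
      beta_reduce
      have hZ := isZ_ones h hh
      by_cases h2 : endsOne h = true
      · rw [if_pos h2]
        have h2' := (two_mem_ones h).2 h2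
        have hG : IsZ ((ones h).erase 2) := hZ.subset (Finset.erase_subset _ _)
        have hGb : ∀ i ∈ (ones h).erase 2, 3 + 1 ≤ i := by
          intro i hi
          obtain ⟨hi1, hi2⟩ := Finset.mem_erase.1 hi
          have h4 := hZ.1 i hi2
          exact gap hZ hi2 h2' (by omega)
        obtain ⟨T, t1, t2, t3⟩ := up _ _ 3 le_rfl (by omega) hG hGb
        have e0 := t3 0
        rw [sh_zero, sh_zero] at e0
        have e1 := t3 (n + 1)
        have e2 : ftm (val h + 1) = T.card % 2 := by
          rw [← ftm_fs t1, ← e0, val_eq, fs_erase h2']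
          norm_num [fib]
          ring_nf
        have e3 : fs (sh (n + 1) (ones h)) =
            fib (n + 3) + fs (sh (n + 1) ((ones h).erase 2)) := by
          rw [fs_sh, fs_sh, ← Finset.add_sum_erase _ _ h2']
          have : 2 + (n + 1) = n + 3 := by omega
          rw [this]
        obtain ⟨s1, s2, s3⟩ := sep (S := sh (n + 1) T) (T := D.erase (n + 2)) t1.sh hD' (by
            intro a ha b hb
            obtain ⟨a', ha', rfl⟩ := mem_sh.1 ha
            have h5 := t2 a' ha'
            have := hD'b b hb
            omega)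
        have e6 : 3 + (n + 1) = n + 4 := by omega
        rw [e6] at e1
        have e7 : fs (sh (n + 1) (ones h)) + fs D =
            fs (sh (n + 1) T ∪ D.erase (n + 2)) := by
          rw [s2]
          omega
        rw [e7, ftm_fs s1, s3, card_sh, e2]
        omega
      · rw [if_neg h2]
        have h2' : 2 ∉ ones h := fun h' => h2 ((two_mem_ones h).1 h')
        obtain ⟨s1, s2, s3⟩ := sep (S := sh (n + 1) (ones h)) (T := D) hZ.sh hD (by
            intro a ha b hb
            obtain ⟨a', ha', rfl⟩ := mem_sh.1 ha
            have h4 := hZ.1 a' ha'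
            have h5 : a' ≠ 2 := fun e => h2' (e ▸ ha')
            have := hDb' b hb
            omega)
        rw [← s2, ftm_fs s1, s3, card_sh, val_eq, ftm_fs hZ]
        omega
    · refine ⟨fun _ t0 _ => (t0 + D.card) % 2, fun h hh => ?_⟩
      rw [htot h]
      beta_reduce
      have hZ := isZ_ones h hh
      obtain ⟨s1, s2, s3⟩ := sep (S := sh (n + 1) (ones h)) (T := D) hZ.sh hD (by
          intro a ha b hb
          obtain ⟨a', ha', rfl⟩ := mem_sh.1 ha
          have h4 := hZ.1 a' ha'
          have h5 : b ≠ n + 2 := fun e => c2 (e ▸ hb)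
          have := hDb' b hb
          omega)
      rw [← s2, ftm_fs s1, s3, card_sh, val_eq, ftm_fs hZ]
      omega

end Pool.Agent.Q201.FT
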