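import Pool.Agent.Q201.FT.Zset

/-!
# The exchange of two blocks
-/

set_option autoImplicit false

namespace Pool.Agent.Q201.FT

open Finset Nat

theorem three {A B : Finset ℕ} {M : List ℕ} {lo hi : ℕ} (hA : IsZ A) (hB : IsZ B)
    (hM : M.Pairwise (fun a b => b + 2 ≤ a)) (hlo : ∀ i ∈ M, lo ≤ i) (hhi : ∀ i ∈ M, i ≤ hi)
    (h1 : ∀ i ∈ A, hi + 2 ≤ i) (h2 : ∀ i ∈ B, i + 2 ≤ lo) (h3 : 2 ≤ lo) (h4 : lo ≤ hi) :
    ftm (fs A + (M.map fib).sum + fs B) = (A.card + M.length + B.card) % 2 := by
  classical
  have hnd : M.Nodup := hM.imp fun h => by omega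
  have hZ : IsZ M.toFinset := by
    constructor
    · intro i hi
      have := hlo i (List.mem_toFinset.1 hi)
      omega
    · intro i hi hi'
      rw [List.mem_toFinset] at hi hi'
      have hsym : ∀ x ∈ M, ∀ y ∈ M, x ≠ y → (y + 2 ≤ x ∨ x + 2 ≤ y) := by
        have : M.Pairwise (fun a b => b + 2 ≤ a ∨ a + 2 ≤ b) := hM.imp fun h => Or.inl h
        intro x hx y hy hxy
        rcases List.mem_iff_getElem.1 hx with ⟨a, ha, rfl⟩
        rcases List.mem_iff_getElem.1 hy with ⟨b, hb, rfl⟩
        rw [List.pairwise_iff_getElem] at this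
        rcases lt_trichotomy a b with h | h | h
        · exact this a b ha hb h
        · subst h
          exact absurd rfl hxy
        · exact (this b a hb ha h).symm
      have := hsym i hi (i + 1) hi' (by omega)
      omega
  have hsum : (M.map fib).sum = fs M.toFinset := by
    unfold fs
    rw [List.sum_toFinset _ hnd]
  have hcard : M.toFinset.card = M.length := List.toFinset_card_of_nodup hnd
  obtain ⟨s1, s2, s3⟩ := sep hA hZ (fun a ha b hb => by
    have e1 := h1 a ha
    have e2 := hhi b (List.mem_toFinset.1 hb)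
    omega)
  obtain ⟨r1, r2, r3⟩ := sep s1 hB (fun a ha b hb => by
    have e3 := h2 b hb
    rcases Finset.mem_union.1 ha with ha | ha
    · have e1 := h1 a ha
      omega
    · have e2 := hlo a (List.mem_toFinset.1 ha)
      omega)
  rw [hsum, ← s2, ← r2, ftm_fs r1, r3, s3, hcard]

theorem expl {A B : Finset ℕ} {p : ℕ} (hA : IsZ A) (hB : IsZ B) (hAp : ∀ i ∈ A, p + 13 ≤ i)
    (hBp : ∀ i ∈ B, i + 1 ≤ p) (hp : 2 ≤ p) (M M' : List ℕ)
    (hM : M.Pairwise (fun a b => b + 2 ≤ a)) (hM' : M'.Pairwise (fun a b => b + 2 ≤ a))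
    (h1 : ∀ i ∈ M, p + 1 ≤ i) (h2 : ∀ i ∈ M, i ≤ p + 11) (h1' : ∀ i ∈ M', p + 1 ≤ i)
    (h2' : ∀ i ∈ M', i ≤ p + 11) {X Y : ℕ} (hX : X = fs A + (M.map fib).sum + fs B)
    (hY : Y = fs A + (M'.map fib).sum + fs B) (hl : M.length % 2 = M'.length % 2) :
    ftm X = ftm Y := by
  rw [hX, hY, three hA hB hM h1 h2 (fun i hi => by have := hAp i hi; omega)
    (fun i hi => by have := hBp i hi; omega) (by omega) (by omega),
    three hA hB hM' h1' h2' (fun i hi => by have := hAp i hi; omega)
    (fun i hi => by have := hBp i hi; omega) (by omega) (by omega)]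
  omega

theorem swapZ {A B : Finset ℕ} {p j : ℕ} (hA : IsZ A) (hB : IsZ B) (hAp : ∀ i ∈ A, p + 13 ≤ i)
    (hBp : ∀ i ∈ B, i + 1 ≤ p) (hp : 2 ≤ p) (hj : 2 ≤ j) :
    ftm (fs A + (fib (p + 10) + fib (p + 7) + fib (p + 5) + fib (p + 3)) + fs B + fib j) =
      ftm (fs A + (fib (p + 10) + fib (p + 8) + fib (p + 6) + fib (p + 3)) + fs B + fib j) := by
  have f2 : fib (p + 2) = fib p + fib (p + 1) := Nat.fib_add_two
  have f3 : fib (p + 3) = fib (p + 1) + fib (p + 2) := Nat.fib_add_two
  have f4 : fib (p + 4) = fib (p + 2) + fib (p + 3) := Nat.fib_add_two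
  have f5 : fib (p + 5) = fib (p + 3) + fib (p + 4) := Nat.fib_add_two
  have f6 : fib (p + 6) = fib (p + 4) + fib (p + 5) := Nat.fib_add_two
  have f7 : fib (p + 7) = fib (p + 5) + fib (p + 6) := Nat.fib_add_two
  have f8 : fib (p + 8) = fib (p + 6) + fib (p + 7) := Nat.fib_add_two
  have f9 : fib (p + 9) = fib (p + 7) + fib (p + 8) := Nat.fib_add_two
  have f10 : fib (p + 10) = fib (p + 8) + fib (p + 9) := Nat.fib_add_two
  have f11 : fib (p + 11) = fib (p + 9) + fib (p + 10) := Nat.fib_add_two
  have f12 : fib (p + 12) = fib (p + 10) + fib (p + 11) := Nat.fib_add_two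
  by_cases c0 : j ≤ p
  · obtain ⟨D, hD, hD'⟩ := exists_rep (fs B + fib j)
    have e1 := fs_lt hB p (by omega) (fun i hi => by have := hBp i hi; omega)
    have e2 : fib j ≤ fib p := Nat.fib_mono c0
    have e3 : fib p ≤ fib (p + 1) := Nat.fib_le_fib_succ
    have hDb := lt_of_fs (s := D) (n := p + 2) (by omega)
    have key : ∀ M : List ℕ, M.Pairwise (fun a b => b + 2 ≤ a) → (∀ i ∈ M, p + 3 ≤ i) →
        (∀ i ∈ M, i ≤ p + 11) →
        ftm (fs A + (M.map fib).sum + fs B + fib j) = (A.card + M.length + D.card) % 2 := by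
      intro M hM h1 h2
      rw [add_assoc, ← hD']
      exact three hA hD hM h1 h2 (fun i hi => by have := hAp i hi; omega)
        (fun i hi => by have := hDb i hi; omega) (by omega) (by omega)
    have k1 := key [p + 10, p + 7, p + 5, p + 3] (by simp) (by simp) (by simp)
    have k2 := key [p + 10, p + 8, p + 6, p + 3] (by simp) (by simp) (by simp)
    have g1 : ([p + 10, p + 7, p + 5, p + 3].map fib).sum =
      fib (p + 10) + fib (p + 7) + fib (p + 5) + fib (p + 3) := by simp [add_assoc]
    have g2 : ([p + 10, p + 8, p + 6, p + 3].map fib).sum =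
      fib (p + 10) + fib (p + 8) + fib (p + 6) + fib (p + 3) := by simp [add_assoc]
    rw [g1] at k1
    rw [g2] at k2
    rw [k1, k2]
    simp
  by_cases c1 : j = p + 1
  · subst c1
    exact expl hA hB hAp hBp hp [p + 10, p + 7, p + 5, p + 3, p + 1]
      [p + 10, p + 8, p + 6, p + 3, p + 1] (by simp) (by simp) (by simp) (by simp) (by simp)
      (by simp) (by simp; omega) (by simp; omega) (by simp)
  by_cases c2 : j = p + 2
  · subst c2
    exact expl hA hB hAp hBp hp [p + 10, p + 8] [p + 10, p + 8, p + 6, p + 4] (by simp) (by simp)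
      (by simp) (by simp) (by simp) (by simp) (by simp; omega) (by simp; omega) (by simp)
  by_cases c3 : j = p + 3
  · subst c3
    exact expl hA hB hAp hBp hp [p + 10, p + 8, p + 1] [p + 10, p + 8, p + 6, p + 4, p + 1]
      (by simp) (by simp) (by simp) (by simp) (by simp) (by simp) (by simp; omega)
      (by simp; omega) (by simp)
  by_cases c4 : j = p + 4
  · subst c4
    exact expl hA hB hAp hBp hp [p + 10, p + 8, p + 3] [p + 11]
      (by simp) (by simp) (by simp) (by simp) (by simp) (by simp) (by simp; omega)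
      (by simp; omega) (by simp)
  by_cases c5 : j = p + 5
  · subst c5
    exact expl hA hB hAp hBp hp [p + 10, p + 8, p + 4, p + 1] [p + 11, p + 3]
      (by simp) (by simp) (by simp) (by simp) (by simp) (by simp) (by simp; omega)
      (by simp; omega) (by simp)
  by_cases c6 : j = p + 6
  · subst c6
    exact expl hA hB hAp hBp hp [p + 10, p + 8, p + 5, p + 3] [p + 11, p + 5]
      (by simp) (by simp) (by simp) (by simp) (by simp) (by simp) (by simp; omega)
      (by simp; omega) (by simp)
  by_cases c7 : j = p + 7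
  · subst c7
    exact expl hA hB hAp hBp hp [p + 10, p + 8, p + 6, p + 4, p + 1] [p + 11, p + 6, p + 3]
      (by simp) (by simp) (by simp) (by simp) (by simp) (by simp) (by simp; omega)
      (by simp; omega) (by simp)
  by_cases c8 : j = p + 8
  · subst c8
    exact expl hA hB hAp hBp hp [p + 11, p + 5, p + 3] [p + 11, p + 7, p + 5]
      (by simp) (by simp) (by simp) (by simp) (by simp) (by simp) (by simp; omega)
      (by simp; omega) (by simp)
  by_cases c9 : j = p + 9
  · subst c9
    exact expl hA hB hAp hBp hp [p + 11, p + 7, p + 5, p + 3] [p + 11, p + 8, p + 6, p + 3]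
      (by simp) (by simp) (by simp) (by simp) (by simp) (by simp) (by simp; omega)
      (by simp; omega) (by simp)
  by_cases c10 : j = p + 10
  · subst c10
    exact expl hA hB hAp hBp hp [p + 11, p + 9, p + 5, p + 3] [p + 11, p + 9, p + 7, p + 5]
      (by simp) (by simp) (by simp) (by simp) (by simp) (by simp) (by simp; omega)
      (by simp; omega) (by simp)
  -- the index is above the block
  have top : ∀ T : Finset ℕ, IsZ T → (∀ i ∈ T, p + 10 ≤ i) → ∀ X Y : ℕ,
      X = fs T + (fib (p + 7) + fib (p + 5) + fib (p + 3)) + fs B →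
      Y = fs T + (fib (p + 8) + fib (p + 6) + fib (p + 3)) + fs B → ftm X = ftm Y := by
    intro T hT hTb X Y hX hY
    have k1 := three hT hB (M := [p + 7, p + 5, p + 3]) (lo := p + 1) (hi := p + 8) (by simp)
      (by simp) (by simp) (fun i hi => by have := hTb i hi; omega)
      (fun i hi => by have := hBp i hi; omega) (by omega) (by omega)
    have k2 := three hT hB (M := [p + 8, p + 6, p + 3]) (lo := p + 1) (hi := p + 8) (by simp)
      (by simp) (by simp) (fun i hi => by have := hTb i hi; omega)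
      (fun i hi => by have := hBp i hi; omega) (by omega) (by omega)
    have g1 : ([p + 7, p + 5, p + 3].map fib).sum =
      fib (p + 7) + fib (p + 5) + fib (p + 3) := by simp [add_assoc]
    have g2 : ([p + 8, p + 6, p + 3].map fib).sum =
      fib (p + 8) + fib (p + 6) + fib (p + 3) := by simp [add_assoc]
    rw [g1] at k1
    rw [g2] at k2
    rw [hX, hY, k1, k2]
    simp
  by_cases c11 : j = p + 11
  · subst c11
    obtain ⟨T, t1, t2, t3⟩ := up0 (j := p + 12) (by omega) hA hAp
    exact top T t1 (fun i hi => by have := t2 i hi; omega) _ _ (by omega) (by omega)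
  by_cases c12 : j = p + 12
  · subst c12
    obtain ⟨T, t1, t2, t3⟩ := up0 (j := p + 12) (by omega) hA hAp
    obtain ⟨T', r1, r2, r3⟩ := up0 (j := p + 10) (by omega) t1
      (fun i hi => by have := t2 i hi; omega)
    exact top T' r1 r2 _ _ (by omega) (by omega)
  obtain ⟨T, t1, t2, t3⟩ := addF (b := p + 13) (j := j) (by omega) hA hAp (by omega)
  obtain ⟨T', r1, r2, r3⟩ := up0 (j := p + 10) (by omega) t1
    (fun i hi => by have := t2 i hi; omega)
  exact top T' r1 r2 _ _ (by omega) (by omega)

end Pool.Agent.Q201.FT
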