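import Pool.Agent.Q201.FT.Defs

/-!
# Words and their index sets
-/

set_option autoImplicit false

namespace Pool.Agent.Q201.FT

open Finset Nat

/-- the words agree on being allowed to be followed by a `1` -/
def endsOne (w : List Bool) : Bool := w.getLast? == some true

/-- the word starts with the digit `1` -/
def startsOne (w : List Bool) : Bool := w.head? == some true

theorem valid_nil : Valid [] := List.IsChain.nil

theorem valid_append {a b : List Bool} :
    Valid (a ++ b) ↔ Valid a ∧ Valid b ∧ ¬ (endsOne a = true ∧ startsOne b = true) := by
  unfold Valid
  rw [List.isChain_append]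
  refine and_congr_right fun _ => and_congr_right fun _ => ?_
  simp only [endsOne, startsOne, beq_iff_eq]
  constructor
  · intro h ⟨h1, h2⟩
    exact h true (by simp [h1]) true (by simp [h2]) ⟨rfl, rfl⟩
  · intro h x hx y hy ⟨h1, h2⟩
    subst h1
    subst h2
    exact h ⟨by simpa using hx, by simpa using hy⟩

theorem valid_cons {e : Bool} {w : List Bool} :
    Valid (e :: w) ↔ Valid w ∧ ¬ (e = true ∧ startsOne w = true) := by
  have := valid_append (a := [e]) (b := w)
  rw [List.singleton_append] at this
  rw [this]
  have h1 : Valid [e] := List.IsChain.singleton _
  simp [h1, endsOne]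

theorem endsOne_append {a b : List Bool} (hb : b ≠ []) : endsOne (a ++ b) = endsOne b := by
  unfold endsOne
  rw [List.getLast?_append_of_ne_nil _ hb]

theorem startsOne_append {a b : List Bool} (ha : a ≠ []) : startsOne (a ++ b) = startsOne a := by
  unfold startsOne
  rw [List.head?_append_of_ne_nil _ ha]

/-- the set of indices of the ones -/
def ones : List Bool → Finset ℕ
  | [] => ∅
  | e :: w => if e then insert (w.length + 2) (ones w) else ones w

theorem ones_cons (e : Bool) (w : List Bool) :
    ones (e :: w) = if e then insert (w.length + 2) (ones w) else ones w := rfl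

theorem mem_ones_lt : ∀ (w : List Bool), ∀ i ∈ ones w, 2 ≤ i ∧ i < w.length + 2 := by
  intro w
  induction w with
  | nil => simp [ones]
  | cons e w ih =>
    intro i hi
    unfold ones at hi
    rw [List.length_cons]
    split_ifs at hi with he
    · rcases Finset.mem_insert.1 hi with rfl | hi
      · omega
      · have := ih i hi
        omega
    · have := ih i hi
      omega

theorem val_eq : ∀ w : List Bool, val w = fs (ones w) := by
  intro w
  induction w with
  | nil => simp [val, ones, fs]
  | cons e w ih =>
    unfold val ones
    split_ifs with he
    · rw [fs_insert (fun h => by have := mem_ones_lt w _ h; omega), ih]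
    · rw [ih, zero_add]

theorem top_mem (w : List Bool) : w.length + 1 ∈ ones w → startsOne w = true := by
  cases w with
  | nil => simp [ones]
  | cons e w =>
    intro h
    unfold ones at h
    rw [List.length_cons] at h
    split_ifs at h with he
    · simp [startsOne, he]
    · have := mem_ones_lt w _ h
      omega

theorem isZ_ones : ∀ w : List Bool, Valid w → IsZ (ones w) := by
  intro w
  induction w with
  | nil =>
    intro _
    exact ⟨by simp [ones], by simp [ones]⟩
  | cons e w ih =>
    intro h
    obtain ⟨h1, h2⟩ := valid_cons.1 h
    unfold ones
    split_ifs with he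
    · refine (ih h1).insert (by omega) fun b hb => ?_
      have h3 := mem_ones_lt w b hb
      have h4 : b ≠ w.length + 1 := fun e' => h2 ⟨he, top_mem w (e' ▸ hb)⟩
      omega
    · exact ih h1

theorem ones_append (b : List Bool) : ∀ a : List Bool, ones (a ++ b) = sh b.length (ones a) ∪ ones b := by
  intro a
  induction a with
  | nil => simp [ones, sh]
  | cons e a ih =>
    rw [List.cons_append, ones_cons, ones_cons, ih, List.length_append]
    split_ifs with he
    · ext i
      simp only [Finset.mem_insert, Finset.mem_union, mem_sh]
      constructor
      · rintro (rfl | ⟨x, hx, rfl⟩ | h)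
        · left
          exact ⟨a.length + 2, Or.inl rfl, by omega⟩
        · left
          exact ⟨x, Or.inr hx, rfl⟩
        · exact Or.inr h
      · rintro (⟨x, rfl | hx, rfl⟩ | h)
        · left
          omega
        · exact Or.inr (Or.inl ⟨x, hx, rfl⟩)
        · exact Or.inr (Or.inr h)
    · rfl

theorem val_append (a b : List Bool) : val (a ++ b) = fs (sh b.length (ones a)) + val b := by
  rw [val_eq, ones_append, val_eq b]
  unfold fs
  rw [Finset.sum_union]
  rw [Finset.disjoint_left]
  intro i hi hi'
  obtain ⟨x, hx, rfl⟩ := mem_sh.1 hi
  have h1 := mem_ones_lt a x hx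
  have h2 := mem_ones_lt b _ hi'
  omega

theorem val_lt (w : List Bool) (h : Valid w) : val w < fib (w.length + 2) := by
  rw [val_eq]
  exact fs_lt (isZ_ones w h) _ (by omega) fun i hi => (mem_ones_lt w i hi).2

theorem two_mem_ones : ∀ w : List Bool, 2 ∈ ones w ↔ endsOne w = true := by
  intro w
  induction w with
  | nil => simp [ones, endsOne]
  | cons e w ih =>
    unfold ones
    cases w with
    | nil =>
      cases e <;> simp [ones, endsOne]
    | cons e' w' =>
      have h1 : endsOne (e :: e' :: w') = endsOne (e' :: w') := by
        simp [endsOne, List.getLast?_cons_cons]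
      rw [h1, ← ih]
      split_ifs with he
      · rw [Finset.mem_insert]
        constructor
        · rintro (h | h)
          · simp at h
          · exact h
        · exact Or.inr
      · rfl

end Pool.Agent.Q201.FT
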