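import Mathlib

/-!
# Fibonacci representations as finite sets of indices
-/

set_option autoImplicit false

namespace Pool.Agent.Q201.FT

open Finset Nat

/-- the Fibonacci-Thue-Morse sequence: parity of the length of the Zeckendorf representation -/
def ftm (n : ℕ) : ℕ := n.zeckendorf.length % 2

/-- index sets of Fibonacci representations -/
def IsZ (s : Finset ℕ) : Prop := (∀ i ∈ s, 2 ≤ i) ∧ ∀ i ∈ s, i + 1 ∉ s

/-- the number represented -/
def fs (s : Finset ℕ) : ℕ := ∑ i ∈ s, fib i

theorem gap {s : Finset ℕ} (h : IsZ s) {a b : ℕ} (ha : a ∈ s) (hb : b ∈ s) (hab : b < a) :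
    b + 2 ≤ a := by
  by_contra hne
  have : a = b + 1 := by omega
  subst this
  exact h.2 b hb ha

theorem ftm_fs {s : Finset ℕ} (h : IsZ s) : ftm (fs s) = s.card % 2 := by
  classical
  obtain ⟨N, hN⟩ : ∃ N, ∀ i ∈ s, i < N := ⟨s.sup id + 1, fun i hi =>
    Nat.lt_succ_of_le (Finset.le_sup (f := id) hi)⟩
  set l : List ℕ := (List.range N).reverse.filter (fun i => decide (i ∈ s)) with hl
  have hmem : ∀ i, i ∈ l ↔ i ∈ s := by
    intro i
    simp only [hl, List.mem_filter, List.mem_reverse, List.mem_range, decide_eq_true_eq]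
    exact ⟨fun h => h.2, fun h => ⟨hN i h, h⟩⟩
  have hpw : l.Pairwise (fun a b => b < a) := by
    apply List.Pairwise.filter
    rw [List.pairwise_reverse]
    exact List.pairwise_lt_range
  have hnd : l.Nodup := hpw.imp fun h => (Nat.ne_of_lt h).symm
  have hto : l.toFinset = s := by
    ext i
    rw [List.mem_toFinset, hmem]
  have hlen : l.length = s.card := by
    rw [← hto, List.toFinset_card_of_nodup hnd]
  have hsum : (l.map fib).sum = fs s := by
    unfold fs
    rw [← hto, List.sum_toFinset _ hnd]
  have hrep : l.IsZeckendorfRep := by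
    unfold List.IsZeckendorfRep
    apply List.Pairwise.isChain
    rw [List.pairwise_append]
    refine ⟨?_, List.pairwise_singleton _ _, ?_⟩
    · exact hpw.imp_of_mem fun {a b} ha hb hab => gap h ((hmem a).1 ha) ((hmem b).1 hb) hab
    · intro a ha b hb
      rw [List.mem_singleton] at hb
      subst hb
      have := h.1 a ((hmem a).1 ha)
      omega
  unfold ftm
  rw [← hsum, Nat.zeckendorf_sum_fib hrep, hlen]

theorem fs_insert {s : Finset ℕ} {a : ℕ} (h : a ∉ s) : fs (insert a s) = fib a + fs s := by
  classical
  unfold fs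
  rw [Finset.sum_insert h]

theorem fs_erase {s : Finset ℕ} {a : ℕ} (h : a ∈ s) : fs s = fib a + fs (s.erase a) := by
  classical
  unfold fs
  rw [Finset.add_sum_erase s fib h]

theorem IsZ.subset {s t : Finset ℕ} (h : IsZ s) (ht : t ⊆ s) : IsZ t :=
  ⟨fun i hi => h.1 i (ht hi), fun i hi h' => h.2 i (ht hi) (ht h')⟩

theorem IsZ.insert {s : Finset ℕ} {a : ℕ} (h : IsZ s) (ha : 2 ≤ a)
    (h' : ∀ b ∈ s, b + 2 ≤ a ∨ a + 2 ≤ b) : IsZ (insert a s) := by
  constructor
  · intro i hi
    rcases Finset.mem_insert.1 hi with rfl | hi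
    · exact ha
    · exact h.1 i hi
  · intro i hi hi'
    rcases Finset.mem_insert.1 hi with rfl | hi
    · rcases Finset.mem_insert.1 hi' with h1 | h1
      · omega
      · have := h' _ h1
        omega
    · rcases Finset.mem_insert.1 hi' with h1 | h1
      · have := h' _ hi
        omega
      · exact h.2 i hi h1

theorem fs_lt {s : Finset ℕ} (h : IsZ s) : ∀ n, 1 ≤ n → (∀ i ∈ s, i < n) → fs s < fib n := by
  intro n
  induction n using Nat.strong_induction_on generalizing s with
  | _ n ih =>
    intro hn hs
    by_cases hmem : n - 1 ∈ s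
    · have h2 := h.1 _ hmem
      have h3 := ih (n - 2) (by omega) (h.subset (Finset.erase_subset (n - 1) s)) (by omega) (by
        intro i hi
        obtain ⟨hi1, hi2⟩ := Finset.mem_erase.1 hi
        have h4 := hs i hi2
        have h5 := gap h hmem hi2 (by omega)
        omega)
      rw [fs_erase hmem]
      obtain ⟨k, rfl⟩ : ∃ k, n = k + 2 := ⟨n - 2, by omega⟩
      have e1 : k + 2 - 1 = k + 1 := by omega
      have e2 : k + 2 - 2 = k := by omega
      rw [e1] at h3 ⊢
      rw [e2] at h3
      rw [Nat.fib_add_two]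
      omega
    · by_cases hn2 : n = 1
      · subst hn2
        have : s = ∅ := by
          apply Finset.eq_empty_of_forall_notMem
          intro i hi
          have h1 := h.1 i hi
          have h2 := hs i hi
          omega
        subst this
        simp [fs]
      · have h3 := ih (n - 1) (by omega) h (by omega) (by
          intro i hi
          have h4 := hs i hi
          have h5 : i ≠ n - 1 := fun e => hmem (e ▸ hi)
          omega)
        exact lt_of_lt_of_le h3 (Nat.fib_mono (by omega))

theorem le_fs {s : Finset ℕ} {a : ℕ} (h : a ∈ s) : fib a ≤ fs s := by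
  rw [fs_erase h]
  exact Nat.le_add_right _ _

/-- bound for the indices -/
theorem lt_of_fs {s : Finset ℕ} {n : ℕ} (hn : fs s < fib n) : ∀ i ∈ s, i < n := by
  intro i hi
  by_contra hge
  have h1 := le_fs hi
  have h2 : fib n ≤ fib i := Nat.fib_mono (by omega)
  omega

theorem exists_rep (n : ℕ) : ∃ s, IsZ s ∧ fs s = n := by
  classical
  induction n using Nat.strong_induction_on with
  | _ n ih =>
    by_cases hn : n = 0
    · subst hn
      exact ⟨∅, ⟨by simp, by simp⟩, rfl⟩
    · have hg := Nat.fib_greatestFib_le n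
      have hg2 := Nat.lt_fib_greatestFib_add_one n
      set g := Nat.greatestFib n with hgdef
      have hg0 : 2 ≤ g := by
        by_contra hlt
        have : g = 0 ∨ g = 1 := by omega
        rcases this with h | h
        · rw [h] at hg2
          simp at hg2
          omega
        · rw [h] at hg2
          simp at hg2
          omega
      obtain ⟨s, hs, hs'⟩ := ih (n - fib g) (by
        have : 0 < fib g := Nat.fib_pos.2 (by omega)
        omega)
      have hlt : fs s < fib (g - 1) := by
        obtain ⟨k, hk⟩ : ∃ k, g = k + 1 := ⟨g - 1, by omega⟩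
        rw [hk] at hg hg2 hs' ⊢
        have : fib (k + 1 + 1) = fib k + fib (k + 1) := Nat.fib_add_two
        have e1 : k + 1 - 1 = k := by omega
        rw [e1]
        omega
      have hb := lt_of_fs hlt
      refine ⟨insert g s, hs.insert hg0 fun b hb' => ?_, ?_⟩
      · have := hb b hb'
        omega
      · rw [fs_insert]
        · omega
        · intro h
          have := hb g h
          omega

/-- separated unions -/
theorem sep {S T : Finset ℕ} (hS : IsZ S) (hT : IsZ T) (h : ∀ a ∈ S, ∀ b ∈ T, b + 2 ≤ a) :
    IsZ (S ∪ T) ∧ fs (S ∪ T) = fs S + fs T ∧ (S ∪ T).card = S.card + T.card := by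
  classical
  have hd : Disjoint S T := by
    rw [Finset.disjoint_left]
    intro a ha hb
    have := h a ha a hb
    omega
  refine ⟨⟨?_, ?_⟩, ?_, Finset.card_union_of_disjoint hd⟩
  · intro i hi
    rcases Finset.mem_union.1 hi with hi | hi
    · exact hS.1 i hi
    · exact hT.1 i hi
  · intro i hi hi'
    rcases Finset.mem_union.1 hi with hi | hi <;> rcases Finset.mem_union.1 hi' with hi' | hi'
    · exact hS.2 i hi hi'
    · have := h i hi (i + 1) hi'
      omega
    · have := h (i + 1) hi' i hi
      omega
    · exact hT.2 i hi hi'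
  · unfold fs
    rw [Finset.sum_union hd]

/-- shifted sets -/
def sh (m : ℕ) (s : Finset ℕ) : Finset ℕ := s.map (addRightEmbedding m)

theorem mem_sh {m : ℕ} {s : Finset ℕ} {i : ℕ} : i ∈ sh m s ↔ ∃ a ∈ s, a + m = i := by
  simp [sh]

theorem sh_zero (s : Finset ℕ) : sh 0 s = s := by
  ext i
  simp [sh]

theorem card_sh (m : ℕ) (s : Finset ℕ) : (sh m s).card = s.card := by simp [sh]

theorem fs_sh (m : ℕ) (s : Finset ℕ) : fs (sh m s) = ∑ i ∈ s, fib (i + m) := by
  simp [fs, sh]

theorem IsZ.sh {m : ℕ} {s : Finset ℕ} (h : IsZ s) : IsZ (sh m s) := by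
  constructor
  · intro i hi
    obtain ⟨a, ha, rfl⟩ := mem_sh.1 hi
    have := h.1 a ha
    omega
  · intro i hi hi'
    obtain ⟨a, ha, rfl⟩ := mem_sh.1 hi
    obtain ⟨b, hb, hab⟩ := mem_sh.1 hi'
    have : b = a + 1 := by omega
    subst this
    exact h.2 a ha hb

theorem up (n : ℕ) : ∀ (G : Finset ℕ) (j : ℕ), G.card ≤ n → 2 ≤ j → IsZ G →
    (∀ i ∈ G, j + 1 ≤ i) → ∃ T, IsZ T ∧ (∀ i ∈ T, j ≤ i) ∧
      ∀ m, fs (sh m G) + fib (j + m) = fs (sh m T) := by
  classical
  induction n with
  | zero =>
    intro G j hG hj _ _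
    have : G = ∅ := Finset.card_eq_zero.1 (by omega)
    subst this
    refine ⟨{j}, ⟨by simpa using hj, by simp⟩, by simp, fun m => ?_⟩
    simp [fs_sh]
  | succ n ih =>
    intro G j hG hj hZ hGj
    by_cases hmem : j + 1 ∈ G
    · obtain ⟨T, h1, h2, h3⟩ := ih (G.erase (j + 1)) (j + 2) (by
        rw [Finset.card_erase_of_mem hmem]; omega) (by omega)
        (hZ.subset (Finset.erase_subset _ _)) (by
        intro i hi
        obtain ⟨hi1, hi2⟩ := Finset.mem_erase.1 hi
        have h4 := hGj i hi2
        have h5 := gap hZ hi2 hmem (by omega)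
        omega)
      refine ⟨T, h1, fun i hi => by have := h2 i hi; omega, fun m => ?_⟩
      rw [← h3 m, fs_sh, fs_sh, ← Finset.add_sum_erase G (fun i => fib (i + m)) hmem]
      have e1 : j + 2 + m = j + m + 2 := by ring
      have e2 : j + 1 + m = j + m + 1 := by ring
      rw [e1, Nat.fib_add_two]
      simp only [e2]
      omega
    · refine ⟨insert j G, hZ.insert hj fun b hb => ?_, ?_, fun m => ?_⟩
      · have h4 := hGj b hb
        have h5 : b ≠ j + 1 := fun e => hmem (e ▸ hb)
        omega
      · intro i hi
        rcases Finset.mem_insert.1 hi with rfl | hi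
        · exact le_rfl
        · have := hGj i hi
          omega
      · rw [fs_sh, fs_sh, Finset.sum_insert (fun h => by have := hGj j h; omega)]
        omega

theorem up0 {G : Finset ℕ} {j : ℕ} (hj : 2 ≤ j) (hZ : IsZ G) (hG : ∀ i ∈ G, j + 1 ≤ i) :
    ∃ T, IsZ T ∧ (∀ i ∈ T, j ≤ i) ∧ fs G + fib j = fs T := by
  obtain ⟨T, h1, h2, h3⟩ := up G.card G j le_rfl hj hZ hG
  have := h3 0
  rw [sh_zero, sh_zero, Nat.add_zero] at this
  exact ⟨T, h1, h2, this⟩

theorem dn (n : ℕ) : ∀ (j b : ℕ) (B : Finset ℕ), j ≤ n → 4 ≤ b → IsZ B → (∀ i ∈ B, b ≤ i) →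
    (∀ i ∈ B, i ≤ j) → j ∈ B → ∃ D, IsZ D ∧ (∀ i ∈ D, b - 2 ≤ i) ∧ (∀ i ∈ D, i + 1 ≤ j) ∧
      fs B + fib j = fib (j + 1) + fs D := by
  classical
  induction n with
  | zero =>
    intro j b B hj hb _ hB _ hmem
    have := hB j hmem
    omega
  | succ n ih =>
    intro j b B hj hb hZ hB hBj hmem
    have hbj := hB j hmem
    have hZ' : IsZ (B.erase j) := hZ.subset (Finset.erase_subset _ _)
    have hle : ∀ i ∈ B.erase j, i + 2 ≤ j := by
      intro i hi
      obtain ⟨hi1, hi2⟩ := Finset.mem_erase.1 hi
      have h4 := hBj i hi2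
      exact gap hZ hmem hi2 (by omega)
    have hfe := fs_erase hmem
    obtain ⟨k, rfl⟩ : ∃ k, j = k + 4 := ⟨j - 4, by omega⟩
    have f2 : fib (k + 2) = fib k + fib (k + 1) := Nat.fib_add_two
    have f3 : fib (k + 3) = fib (k + 1) + fib (k + 2) := Nat.fib_add_two
    have f4 : fib (k + 4) = fib (k + 2) + fib (k + 3) := Nat.fib_add_two
    have f5 : fib (k + 4 + 1) = fib (k + 3) + fib (k + 4) := Nat.fib_add_two
    by_cases h2 : k + 2 ∈ B.erase (k + 4)
    · obtain ⟨D, d1, d2, d3, d4⟩ := ih (k + 2) b (B.erase (k + 4)) (by omega) hb hZ'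
        (fun i hi => hB i (Finset.mem_of_mem_erase hi)) (fun i hi => by have := hle i hi; omega) h2
      refine ⟨insert (k + 3) D, d1.insert (by omega) (fun i hi => by have := d3 i hi; omega),
        ?_, ?_, ?_⟩
      · intro i hi
        rcases Finset.mem_insert.1 hi with rfl | hi
        · omega
        · exact d2 i hi
      · intro i hi
        rcases Finset.mem_insert.1 hi with rfl | hi
        · omega
        · have := d3 i hi
          omega
      · rw [fs_insert (fun h => by have := d3 _ h; omega)]
        have e1 : k + 2 + 1 = k + 3 := rfl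
        rw [e1] at d4
        omega
    · by_cases h3 : k + 1 ∈ B.erase (k + 4)
      · refine ⟨insert (k + 3) ((B.erase (k + 4)).erase (k + 1)),
          (hZ'.subset (Finset.erase_subset _ _)).insert (by omega) ?_, ?_, ?_, ?_⟩
        · intro i hi
          obtain ⟨hi1, hi2⟩ := Finset.mem_erase.1 hi
          have h4 := hle i hi2
          have h5 : i ≠ k + 2 := fun e => h2 (e ▸ hi2)
          omega
        · intro i hi
          rcases Finset.mem_insert.1 hi with rfl | hi
          · omega
          · have := hB i (Finset.mem_of_mem_erase (Finset.mem_of_mem_erase hi))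
            omega
        · intro i hi
          rcases Finset.mem_insert.1 hi with rfl | hi
          · omega
          · have := hle i (Finset.mem_of_mem_erase hi)
            omega
        · have h6 := fs_erase h3
          rw [fs_insert (fun h => by
            have := hle _ (Finset.mem_of_mem_erase h)
            omega)]
          omega
      · refine ⟨insert (k + 2) (B.erase (k + 4)), hZ'.insert (by omega) ?_, ?_, ?_, ?_⟩
        · intro i hi
          have h4 := hle i hi
          have h5 : i ≠ k + 2 := fun e => h2 (e ▸ hi)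
          have h6 : i ≠ k + 1 := fun e => h3 (e ▸ hi)
          omega
        · intro i hi
          rcases Finset.mem_insert.1 hi with rfl | hi
          · omega
          · have := hB i (Finset.mem_of_mem_erase hi)
            omega
        · intro i hi
          rcases Finset.mem_insert.1 hi with rfl | hi
          · omega
          · have := hle i hi
            omega
        · rw [fs_insert h2]
          omega

/-- adding a Fibonacci number creates indices at most two places lower -/
theorem addF {A : Finset ℕ} {b j : ℕ} (hb : 4 ≤ b) (hZ : IsZ A) (hA : ∀ i ∈ A, b ≤ i)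
    (hj : b ≤ j) : ∃ T, IsZ T ∧ (∀ i ∈ T, b - 2 ≤ i) ∧ fs A + fib j = fs T := by
  classical
  have hsplit : fs A = fs (A.filter (j < ·)) + fs (A.filter (¬ j < ·)) := by
    unfold fs
    rw [Finset.sum_filter_add_sum_filter_not]
  have hU : IsZ (A.filter (j < ·)) := hZ.subset (Finset.filter_subset _ _)
  have hL : IsZ (A.filter (¬ j < ·)) := hZ.subset (Finset.filter_subset _ _)
  have hUb : ∀ i ∈ A.filter (j < ·), j + 1 ≤ i := fun i hi => (Finset.mem_filter.1 hi).2
  have hLb : ∀ i ∈ A.filter (¬ j < ·), i ≤ j := fun i hi => by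
    have := (Finset.mem_filter.1 hi).2
    omega
  have hLb' : ∀ i ∈ A.filter (¬ j < ·), b ≤ i := fun i hi => hA i (Finset.mem_filter.1 hi).1
  by_cases hmem : j ∈ A
  · have hmem' : j ∈ A.filter (¬ j < ·) := Finset.mem_filter.2 ⟨hmem, by omega⟩
    obtain ⟨D, d1, d2, d3, d4⟩ := dn j j b _ le_rfl hb hL hLb' hLb hmem'
    obtain ⟨T, t1, t2, t3⟩ := up0 (j := j + 1) (by omega) hU (by
      intro i hi
      have h1 := hUb i hi
      have h2 := gap hZ (Finset.mem_filter.1 hi).1 hmem (by omega)
      omega)
    obtain ⟨s1, s2, s3⟩ := sep t1 d1 (fun a ha c hc => by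
      have := t2 a ha
      have := d3 c hc
      omega)
    refine ⟨T ∪ D, s1, ?_, ?_⟩
    · intro i hi
      rcases Finset.mem_union.1 hi with hi | hi
      · have := t2 i hi
        omega
      · exact d2 i hi
    · rw [s2, hsplit]
      omega
  · by_cases hmem1 : j + 1 ∈ A
    · have hm : j + 1 ∈ A.filter (j < ·) := Finset.mem_filter.2 ⟨hmem1, by omega⟩
      obtain ⟨T, t1, t2, t3⟩ := up0 (j := j + 2) (by omega)
        (hU.subset (Finset.erase_subset (j + 1) _)) (by
        intro i hi
        obtain ⟨hi1, hi2⟩ := Finset.mem_erase.1 hi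
        have h1 := hUb i hi2
        have h2 := gap hU hi2 hm (by omega)
        omega)
      have hLb2 : ∀ i ∈ A.filter (¬ j < ·), i + 1 ≤ j := fun i hi => by
        have h1 := hLb i hi
        have h2 : i ≠ j := fun e => hmem (e ▸ (Finset.mem_filter.1 hi).1)
        omega
      obtain ⟨s1, s2, s3⟩ := sep t1 hL (fun a ha c hc => by
        have := t2 a ha
        have := hLb2 c hc
        omega)
      refine ⟨T ∪ A.filter (¬ j < ·), s1, ?_, ?_⟩
      · intro i hi
        rcases Finset.mem_union.1 hi with hi | hi
        · have := t2 i hi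
          omega
        · have := hLb' i hi
          omega
      · have h6 := fs_erase hm
        have f2 : fib (j + 2) = fib j + fib (j + 1) := Nat.fib_add_two
        rw [s2, hsplit]
        omega
    · by_cases hmem2 : j - 1 ∈ A
      · have hj1 := hA _ hmem2
        have hm : j - 1 ∈ A.filter (¬ j < ·) := Finset.mem_filter.2 ⟨hmem2, by omega⟩
        obtain ⟨T, t1, t2, t3⟩ := up0 (j := j + 1) (by omega) hU (by
          intro i hi
          have h1 := hUb i hi
          have h2 : i ≠ j + 1 := fun e => hmem1 (e ▸ (Finset.mem_filter.1 hi).1)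
          omega)
        have hLb2 : ∀ i ∈ (A.filter (¬ j < ·)).erase (j - 1), i + 3 ≤ j := fun i hi => by
          obtain ⟨hi1, hi2⟩ := Finset.mem_erase.1 hi
          have h1 := hLb i hi2
          have h2 : i ≠ j := fun e => hmem (e ▸ (Finset.mem_filter.1 hi2).1)
          have h3 := gap hZ hmem2 (Finset.mem_filter.1 hi2).1 (by omega)
          omega
        obtain ⟨s1, s2, s3⟩ := sep t1 (hL.subset (Finset.erase_subset (j - 1) _))
          (fun a ha c hc => by
            have := t2 a ha
            have := hLb2 c hc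
            omega)
        refine ⟨_, s1, ?_, ?_⟩
        · intro i hi
          rcases Finset.mem_union.1 hi with hi | hi
          · have := t2 i hi
            omega
          · have := hLb' i (Finset.mem_of_mem_erase hi)
            omega
        · have h6 := fs_erase hm
          obtain ⟨k, rfl⟩ : ∃ k, j = k + 1 := ⟨j - 1, by omega⟩
          have f2 : fib (k + 1 + 1) = fib k + fib (k + 1) := Nat.fib_add_two
          have e1 : k + 1 - 1 = k := by omega
          rw [e1] at h6 s2 ⊢
          rw [s2, hsplit]
          omega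
      · refine ⟨insert j A, hZ.insert (by omega) ?_, ?_, ?_⟩
        · intro i hi
          have h1 : i ≠ j := fun e => hmem (e ▸ hi)
          have h2 : i ≠ j + 1 := fun e => hmem1 (e ▸ hi)
          have h3 : i ≠ j - 1 := fun e => hmem2 (e ▸ hi)
          omega
        · intro i hi
          rcases Finset.mem_insert.1 hi with rfl | hi
          · omega
          · have := hA i hi
            omega
        · rw [fs_insert hmem]
          omega

end Pool.Agent.Q201.FT
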